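import Pool.Agent.Work.MP_cea1f0_al.D.Osi

/-!
# The bound of Brauer and Feit for the number of characters in a block  (tasks PU BFA, PU BFB, PU BFC, PU BFD)

* `free_tr`: let `ζ` be a primitive `p`-th root of unity; `ζ - 1` is not a unit of `O` (`kO_charP`, `piO`).  There is `z : Ω → ℂ` with
  values powers of `ζ` and `z (W ω) = ζ * z ω` (for every cycle of `W` choose a point `r` and put `z ((W ^ i) r) = ζ ^ i`;
  `Equiv.Perm.SameCycle.setoid`, `Quotient.out`, `SameCycle.exists_nat_pow_eq`).  With `Z = diagonal z`, `U` the matrix of `W`,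
  `Ψ = M * Z * M + (1 - M)` reduces to `1` (do the computation for matrices over `O` and apply the residue map to the
  determinant), so it is invertible, and `U * M * Ψ = ζ • (Ψ * (U * M))` (or with `ζ⁻¹`); take traces after conjugation.
* `theta_zero`: `Ω = G`, `M x y = b (x * y⁻¹)`, `W x = g * x * h⁻¹`.  If `(W ^ n) x = x` then `g ^ n`, `h ^ n` are conjugate; if
  `p` does not divide `n` then `p ∣ orderOf g ↔ p ∣ orderOf (g ^ n)`.
* `ap_tau`: `card G * ap b f g = ∑ y, (∑ x, b (x * y * x⁻¹ * g⁻¹)) * f y` for a class function `f`.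
* `cc_mem`, `cc_non`: take `x` with `O.valuation (χ x)` maximal in `OsA_conv`; then `cc χ z = ∑ g, z g * (χ (g * x) / χ x)`.
* `block_dich`: `IsBlock.prim`, `Prim.fit` for `red b * red z` (`red_central`, `fix_top_iff`).  In the nilpotent case show by induction
  that for all `n` there is an `O`-valued class function `w` with `red w = (red b * red z) ^ (n + 1)` and
  `cc χ w = cc χ z ^ (n + 1)`.  In the other case lift `y` to the class function `l ∘ y.coeff` (`exists_lift`, `fix_iff`).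
* `deg_mem`: `b` is the sum over `c : ConjClasses G` of `b c.out` times the indicator function `κ c` of the class.  As `cc χ b = 1` there
  is a class with `b c.out` and `cc χ (κ c)` units.  By `block_dich`, `red b * red (κ c) * y = red b`, so `Br D (red (κ c)) ≠ 0`
  (`Br_mul`): some `g` in the class centralises `D`.  Take a Sylow subgroup `S` of the centraliser `C` of `g` that contains `D`
  (`IsPGroup.exists_le_sylow`, `Subgroup.subgroupOf`); `Br S (red b) ≠ 0` (coefficient of `g`), so `S = D`.  Finally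
  `cc χ (κ c) = C.index * χ g / χ 1` and `card C = card D * u` with `u` prime to `p` (`inv_mem_O`, `virt_int`, `int_mem_O`).
* `adams_virt`: induction on `N` over primes (`induction_on_primes`), `virt_sub`, `adams`, `Ch.mul`.
* `reg_virt`: `N` the part of `card G` prime to `p`; `adams_virt` for the permutation character on `G ⧸ R` (`perm_mem_ch`).
* `tau_int`: `tau p χ = 1_reg * χ`.  `R = ⊥` shows that the number is rational, `= a / b` in lowest terms; a prime `r ≠ p` does not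
  divide `b` (`R` a Sylow `r`-subgroup), and `p` does not divide `b` since the number lies in `O`.
* `brauer_feit`: let `E` be the set, `χ₀ ∈ E` with `O.valuation (χ₀ 1)` maximal, `z g = tau p χ₀ g⁻¹`, `m ψ = hp (tau p χ₀) ψ` (real by
  `tau_int` with a suitable `c`, or use `star`), `cc ψ z * ψ 1 = card G * star (m ψ)`.  By `ap_tau`, `tau p χ₀ = ∑ ψ ∈ E, m ψ • ψ`.  Average over a
  Sylow `p`-subgroup `S` (`avg_int` with `s = 1`): `S.index = ∑ ψ ∈ E, cc ψ z * n ψ * (ψ 1 / χ₀ 1)`, so one `cc ψ z` is a unit, so all are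
  (`block_dich`), so `card D * m ψ` is a non-zero integer (`deg_mem`, `tau_int`); `∑ ψ ∈ E, ‖m ψ‖ ^ 2 = hp (tau p χ₀) (tau p χ₀) ≤ 1`.
-/

namespace PD

open Pool.Agent.Lib.SymRep Pool.Agent.Puig Finset

variable {G : Type} [Group G] [Fintype G] {p : ℕ} {O : ValuationSubring ℂ}

/-! ### Task PU BFA -/

theorem UBFA_root [Fact p.Prime] (hO : (p : ℂ) ∈ O.nonunits) {x : ℂ} (hx : x ^ p = 1) :
    O.valuation (x - 1) < 1 := by
  have hp : p.Prime := Fact.out
  have hm : x ∈ O := int_mem_O O (IsIntegral.of_pow hp.pos (hx ▸ isIntegral_one))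
  have := kO_charP p hO
  have h1 : (⟨x, hm⟩ : O) ^ p = 1 := Subtype.ext hx
  have h2 : (IsLocalRing.residue O ⟨x, hm⟩ - 1) ^ p = 0 := by
    rw [sub_pow_char, ← map_pow, h1, map_one, one_pow, sub_self]
  have h3 := pow_eq_zero_iff hp.ne_zero |>.1 h2
  rw [← map_one (IsLocalRing.residue O), ← map_sub, IsLocalRing.residue_eq_zero_iff,
    ← O.coe_mem_nonunits_iff] at h3
  exact O.mem_nonunits_iff.1 h3

theorem UBFA_det {Ω : Type} [Fintype Ω] [DecidableEq Ω] {N : Matrix Ω Ω ℂ}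
    (h : ∀ a b, O.valuation (N a b) < 1) : (1 + N).det ≠ 0 := by
  intro hd
  obtain ⟨v, hv, e⟩ := Matrix.exists_mulVec_eq_zero_iff.2 hd
  obtain ⟨a0, ha0⟩ := Function.ne_iff.1 hv
  obtain ⟨a, -, ha⟩ := Finset.exists_max_image univ (fun a => O.valuation (v a)) ⟨a0, mem_univ _⟩
  have hpos : 0 < O.valuation (v a) :=
    ((Valuation.pos_iff _).2 ha0).trans_le (ha a0 (mem_univ _))
  have e1 : v a = -∑ b, N a b * v b := by
    have := congrFun e a
    rw [Matrix.add_mulVec, Matrix.one_mulVec] at this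
    exact eq_neg_of_add_eq_zero_left this
  have : O.valuation (∑ b, N a b * v b) < O.valuation (v a) := by
    refine Valuation.map_sum_lt _ hpos.ne' fun b _ => ?_
    rw [map_mul]
    calc _ ≤ O.valuation (N a b) * O.valuation (v a) := by
          gcongr
          exact ha b (mem_univ _)
      _ < _ := mul_lt_of_lt_one_left hpos (h a b)
  rw [← Valuation.map_neg, ← e1] at this
  exact this.false

theorem UBFA_z {Ω : Type} [Fintype Ω] (W : Equiv.Perm Ω)
    (hW : ∀ ω (n : ℕ), (W ^ n) ω = ω → p ∣ n) {ζ : ℂ} (hζ : ζ ^ p = 1) :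
    ∃ z : Ω → ℂ, (∀ ω, z ω ^ p = 1) ∧ ∀ ω, z (W ω) = ζ * z ω := by
  have k1 : ∀ r (m k : ℕ), (W ^ m) r = (W ^ (m + k)) r → ζ ^ m = ζ ^ (m + k) := fun r m k e => by
    rw [pow_add, Equiv.Perm.mul_apply] at e
    obtain ⟨c, rfl⟩ := hW r k ((W ^ m).injective e).symm
    rw [pow_add, pow_mul, hζ, one_pow, mul_one]
  have k2 : ∀ r (m n : ℕ), (W ^ m) r = (W ^ n) r → ζ ^ m = ζ ^ n := fun r m n e => by
    rcases le_total m n with h | h
    · obtain ⟨k, rfl⟩ := Nat.exists_eq_add_of_le h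
      exact k1 r m k e
    · obtain ⟨k, rfl⟩ := Nat.exists_eq_add_of_le h
      exact (k1 r n k e.symm).symm
  obtain ⟨r, hr⟩ : ∃ r : Ω → Ω,
    r = fun ω => (Quotient.mk (Equiv.Perm.SameCycle.setoid W) ω).out := ⟨_, rfl⟩
  have k3 : ∀ ω, ∃ i : ℕ, (W ^ i) (r ω) = ω := fun ω => by
    have : W.SameCycle (r ω) ω := by
      rw [hr]
      exact Quotient.mk_out (s := Equiv.Perm.SameCycle.setoid W) ω
    exact this.exists_nat_pow_eq
  have k4 : ∀ ω, r (W ω) = r ω := fun ω => by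
    rw [hr]
    exact congrArg Quotient.out (Quotient.sound
      (Equiv.Perm.sameCycle_apply_left.2 (Equiv.Perm.SameCycle.refl W ω)))
  choose i hi using k3
  refine ⟨fun ω => ζ ^ i ω, fun ω => by rw [← pow_mul, mul_comm, pow_mul, hζ, one_pow],
    fun ω => ?_⟩
  rw [← pow_succ']
  refine k2 (r ω) _ _ ?_
  rw [pow_succ', Equiv.Perm.mul_apply, hi, ← k4, hi]

theorem free_tr [Fact p.Prime] (hO : (p : ℂ) ∈ O.nonunits) {Ω : Type} [Fintype Ω]
    (W : Equiv.Perm Ω) (hW : ∀ ω (n : ℕ), (W ^ n) ω = ω → p ∣ n) {M : Matrix Ω Ω ℂ}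
    (hM : ∀ a b, M a b ∈ O) (hi : M * M = M) (hc : ∀ a b, M (W a) (W b) = M a b) :
    ∑ ω, M (W ω) ω = 0 := by
  classical
  have hp : p.Prime := Fact.out
  obtain ⟨ζ, hζ⟩ : ∃ ζ : ℂ, IsPrimitiveRoot ζ p := ⟨_, Complex.isPrimitiveRoot_exp p hp.ne_zero⟩
  obtain ⟨z, hz1, hz2⟩ := UBFA_z W hW hζ.pow_eq_one
  obtain ⟨U, hU⟩ : ∃ U : Matrix Ω Ω ℂ, U = W.toPEquiv.toMatrix := ⟨_, rfl⟩
  have hl : ∀ A : Matrix Ω Ω ℂ, U * A = A.submatrix W id := fun A => by
    rw [hU, PEquiv.toMatrix_toPEquiv_mul]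
  have hr : ∀ A : Matrix Ω Ω ℂ, A * U = A.submatrix id W.symm := fun A => by
    rw [hU, PEquiv.mul_toMatrix_toPEquiv]
  have h1 : U * M = M * U := by
    rw [hl, hr]
    ext a b
    simp only [Matrix.submatrix_apply, id]
    rw [← hc a, Equiv.apply_symm_apply]
  have h2 : U * Matrix.diagonal z = ζ • (Matrix.diagonal z * U) := by
    rw [hl, hr]
    ext a b
    simp only [Matrix.submatrix_apply, id, Matrix.smul_apply, Matrix.diagonal_apply,
      Equiv.eq_symm_apply, smul_eq_mul]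
    split_ifs
    · exact hz2 a
    · simp
  obtain ⟨Ψ, hΨ⟩ : ∃ Ψ, Ψ = 1 + M * (Matrix.diagonal z - 1) * M := ⟨_, rfl⟩
  have hΨ' : Ψ = M * Matrix.diagonal z * M + (1 - M) := by
    rw [hΨ, mul_sub, sub_mul, mul_one, hi]
    abel
  have hd : Ψ.det ≠ 0 := by
    rw [hΨ]
    refine UBFA_det (O := O) fun a b => ?_
    rw [← Matrix.diagonal_one, Matrix.diagonal_sub, Matrix.mul_apply]
    refine Valuation.map_sum_lt _ one_ne_zero fun c _ => ?_
    rw [Matrix.mul_diagonal, map_mul, map_mul]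
    have a1 := (O.valuation_le_one_iff _).2 (hM a c)
    have a2 := (O.valuation_le_one_iff _).2 (hM c b)
    exact (mul_le_of_le_one_right' a2).trans_lt
      ((mul_le_of_le_one_left' a1).trans_lt (UBFA_root hO (hz1 c)))
  have h3 : U * M * Ψ = ζ • (Ψ * (U * M)) := by
    have e1 : U * M * Ψ = M * (U * Matrix.diagonal z) * M := by
      rw [hΨ', mul_add, mul_assoc U M (1 - M), mul_sub, mul_one, hi, sub_self, mul_zero, add_zero,
        mul_assoc U, ← mul_assoc M, ← mul_assoc M, hi, ← mul_assoc U, ← mul_assoc U, h1,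
        mul_assoc M U]
    have e2 : Ψ * (U * M) = M * (Matrix.diagonal z * U) * M := by
      rw [hΨ', add_mul, h1, ← mul_assoc (1 - M), sub_mul, one_mul, hi, sub_self, zero_mul, add_zero,
        mul_assoc _ M, ← mul_assoc M M, hi, ← h1]
      simp only [mul_assoc]
    rw [e1, e2, h2, Matrix.mul_smul, Matrix.smul_mul]
  have hu : IsUnit Ψ.det := isUnit_iff_ne_zero.2 hd
  have h4 : (U * M).trace = ζ * (U * M).trace := by
    calc (U * M).trace = (U * M * Ψ * Ψ⁻¹).trace := by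
          rw [Matrix.mul_nonsing_inv_cancel_right _ _ hu]
      _ = ζ * (U * M).trace := by
          rw [h3, Matrix.smul_mul, Matrix.trace_smul, Matrix.trace_mul_comm,
            Matrix.nonsing_inv_mul_cancel_left _ _ hu, smul_eq_mul]
  have h5 : (U * M).trace = 0 := by
    have h6 : (1 - ζ) * (U * M).trace = 0 := by linear_combination h4
    exact (mul_eq_zero.1 h6).resolve_left (sub_ne_zero.2 (hζ.ne_one hp.one_lt).symm)
  rw [hl] at h5
  exact h5

omit [Fintype G] in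
theorem UBFA_cop [Fact p.Prime] (g : G) {n : ℕ} (hn : ¬ p ∣ n) :
    (orderOf g).Coprime p ↔ (orderOf (g ^ n)).Coprime p := by
  have hp : p.Prime := Fact.out
  refine ⟨fun h => h.coprime_dvd_left (orderOf_pow_dvd n), fun h => ?_⟩
  have h1 : orderOf g ∣ n * orderOf (g ^ n) := by
    rw [orderOf_dvd_iff_pow_eq_one, pow_mul, pow_orderOf_eq_one]
  exact (Nat.Coprime.mul_left ((Nat.Prime.coprime_iff_not_dvd hp).2 hn).symm h).coprime_dvd_left h1

omit [Fintype G] in
theorem UBFA_conj (g x : G) : orderOf (x * g * x⁻¹) = orderOf g :=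
  (MulAut.conj x).orderOf_eq g

theorem theta_zero [Fact p.Prime] (hO : (p : ℂ) ∈ O.nonunits) {b : G → ℂ} (hb : ∀ g, b g ∈ O)
    (hc : ClassFn b) (hi : cv b b = b) {g h : G}
    (hgh : ¬ ((orderOf g).Coprime p ↔ (orderOf h).Coprime p)) :
    ∑ x, b (g * x * h⁻¹ * x⁻¹) = 0 := by
  have hp : p.Prime := Fact.out
  obtain ⟨W, hW⟩ : ∃ W : Equiv.Perm G, ∀ x, W x = g * x * h⁻¹ :=
    ⟨(Equiv.mulLeft g).trans (Equiv.mulRight h⁻¹), fun _ => rfl⟩
  have hn : ∀ (n : ℕ) x, (W ^ n) x = g ^ n * x * (h ^ n)⁻¹ := fun n => by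
    induction n with
    | zero => simp
    | succ n ih =>
      intro x
      rw [pow_succ', Equiv.Perm.mul_apply, hW, ih, pow_succ' g, pow_succ' h]
      group
  have := free_tr hO W (M := Matrix.of fun x y => b (x * y⁻¹)) (fun x n e => ?_)
    (fun _ _ => hb _) ?_ (fun x y => ?_)
  · simpa only [Matrix.of_apply, hW] using this
  · by_contra hd
    refine hgh ?_
    rw [UBFA_cop g hd, UBFA_cop h hd, ← UBFA_conj (h ^ n) x]
    rw [hn] at e
    rw [show x * h ^ n * x⁻¹ = g ^ n by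
      rw [mul_inv_eq_iff_eq_mul] at e ⊢
      exact e.symm]
  · ext x y
    rw [Matrix.mul_apply, Matrix.of_apply, ← congrFun hi (x * y⁻¹), cv]
    refine Fintype.sum_equiv ((Equiv.inv G).trans (Equiv.mulLeft x)) _ _ fun w => ?_
    simp only [Matrix.of_apply, Equiv.trans_apply, Equiv.inv_apply, Equiv.coe_mulLeft]
    congr 2
    group
  · simp only [Matrix.of_apply, hW]
    rw [← hc (x * y⁻¹) g]
    congr 1
    group

theorem idem_supp [Fact p.Prime] (hO : (p : ℂ) ∈ O.nonunits) {b : G → ℂ} (hb : ∀ g, b g ∈ O)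
    (hc : ClassFn b) (hi : cv b b = b) {g : G} (hg : ¬ (orderOf g).Coprime p) : b g = 0 := by
  have := theta_zero hO hb hc hi (g := g) (h := 1) (by simpa using hg)
  simp only [inv_one, mul_one, mul_inv_cancel_right, sum_const, card_univ, nsmul_eq_mul] at this
  exact (mul_eq_zero.1 this).resolve_left (Nat.cast_ne_zero.2 Fintype.card_ne_zero)

theorem UBFA_ap {b f : G → ℂ} (hc : ClassFn b) (hf : Cl f) (g : G) :
    (Fintype.card G : ℂ) * ap b f g = ∑ y, (∑ x, b (y * x * g⁻¹ * x⁻¹)) * f y := by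
  simp only [sum_mul]
  rw [sum_comm, ← nsmul_eq_mul, ← card_univ, ← sum_const]
  refine sum_congr rfl fun x _ => ?_
  refine Fintype.sum_equiv ((Equiv.mulLeft x).trans (Equiv.mulRight (g * x⁻¹))) _ _ fun w => ?_
  simp only [Equiv.trans_apply, Equiv.coe_mulLeft, Equiv.coe_mulRight]
  rw [← hc w x, ← hf (w * g) x]
  congr 2 <;> group

theorem ap_tau [Fact p.Prime] (hO : (p : ℂ) ∈ O.nonunits) {b : G → ℂ} (hb : ∀ g, b g ∈ O)
    (hc : ClassFn b) (hi : cv b b = b) {f : G → ℂ} (hf : Cl f) :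
    ap b (tau p f) = tau p (ap b f) := by
  have ht : Cl (tau p f) := fun g h => by
    unfold tau
    rw [UBFA_conj, hf]
  funext g
  refine mul_left_cancel₀ (Nat.cast_ne_zero.2 (Fintype.card_ne_zero (α := G)) :
    (Fintype.card G : ℂ) ≠ 0) ?_
  rw [UBFA_ap hc ht]
  by_cases hg : (orderOf g).Coprime p
  · rw [show tau p (ap b f) g = ap b f g from if_pos hg, UBFA_ap hc hf]
    refine sum_congr rfl fun y _ => ?_
    by_cases hy : (orderOf y).Coprime p
    · rw [show tau p f y = f y from if_pos hy]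
    · rw [theta_zero hO hb hc hi (by tauto), zero_mul, zero_mul]
  · rw [show tau p (ap b f) g = 0 from if_neg hg, mul_zero]
    refine sum_eq_zero fun y _ => ?_
    by_cases hy : (orderOf y).Coprime p
    · rw [theta_zero hO hb hc hi (by tauto), zero_mul]
    · rw [show tau p f y = 0 from if_neg hy, mul_zero]

/-! ### Task PU BFB -/

/-- The central character. -/
noncomputable def cc (χ z : G → ℂ) : ℂ := (∑ g, z g * χ g) / χ 1

theorem irr_one_ne {χ : G → ℂ} (h : χ ∈ irr G) : χ 1 ≠ 0 := by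
  intro e
  have k : χ = 0 := funext fun x => by simpa [e] using (conv_irr h h x).symm
  have := hp_irr h h
  rw [if_pos rfl, k] at this
  simp [hp] at this

theorem ap_irr {χ z : G → ℂ} (hz : Cl z) (h : χ ∈ irr G) : ap z χ = cc χ z • χ := by
  funext x
  rw [Pi.smul_apply, smul_eq_mul, cc, div_mul_eq_mul_div, eq_div_iff (irr_one_ne h), mul_comm]
  exact OsA_conv hz h x

theorem sum_cv {χ z : G → ℂ} (hz : Cl z) (h : χ ∈ irr G) (y : G → ℂ) :
    ∑ g, cv z y g * χ g = cc χ z * ∑ g, y g * χ g := by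
  have e (k : G) : cc χ z * (y k * χ k) = ∑ g, z g * y k * χ (g * k) := by
    have := congrFun (ap_irr hz h) k
    rw [Pi.smul_apply, smul_eq_mul] at this
    rw [mul_left_comm, ← this, ap, mul_sum]
    exact sum_congr rfl fun g _ => by ring
  simp only [mul_sum, e, cv, sum_mul]
  rw [sum_comm, sum_comm (f := fun k g => z g * y k * χ (g * k))]
  exact sum_congr rfl fun g _ => Fintype.sum_equiv (Equiv.mulLeft g⁻¹) _ _ fun k => by simp

theorem cc_cv {χ z : G → ℂ} (hz : Cl z) (h : χ ∈ irr G) (y : G → ℂ) :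
    cc χ (cv z y) = cc χ z * cc χ y := by
  rw [cc, sum_cv hz h, mul_div_assoc, ← cc]

theorem cc_idem {χ b : G → ℂ} (hc : Cl b) (hi : cv b b = b) (h : χ ∈ irr G) :
    cc χ b = 0 ∨ cc χ b = 1 := by
  have := cc_cv hc h b
  rw [hi] at this
  exact (IsIdempotentElem.iff_eq_zero_or_one).1 this.symm

theorem cl_cv {y z : G → ℂ} (hy : Cl y) (hz : Cl z) : Cl (cv y z) := by
  intro g h
  refine Fintype.sum_equiv (MulAut.conj h⁻¹).toEquiv _ _ fun k => ?_
  rw [← hy k h⁻¹, ← hz _ h⁻¹]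
  simp [mul_assoc]

theorem UBFB_rep (O : ValuationSubring ℂ) {χ : G → ℂ} (h : χ ∈ irr G) :
    ∃ u : G → ℂ, (∀ g, u g ∈ O) ∧ ∀ z, Cl z → cc χ z = ∑ g, z g * u g := by
  obtain ⟨x, -, hx⟩ := exists_max_image univ (fun x => O.valuation (χ x)) univ_nonempty
  have h0 : χ x ≠ 0 := fun e => irr_one_ne h (by simpa [e] using hx 1 (mem_univ _))
  refine ⟨fun g => χ (g * x) / χ x, fun g => ?_, fun z hz => ?_⟩
  · rw [← O.valuation_le_one_iff, map_div₀]
    exact div_le_one_of_le₀ (hx _ (mem_univ _)) zero_le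
  · have := congrFun (ap_irr hz h) x
    rw [Pi.smul_apply, smul_eq_mul, ap] at this
    simp only [← mul_div_assoc, ← sum_div]
    rw [this, mul_div_cancel_right₀ _ h0]

theorem UBFB_mul {x y : ℂ} (hx : x ∈ O.nonunits) (hy : y ∈ O) : x * y ∈ O.nonunits := by
  rw [O.mem_nonunits_iff] at hx ⊢
  rw [map_mul]
  exact (mul_le_of_le_one_right' ((O.valuation_le_one_iff _).2 hy)).trans_lt hx

theorem cc_mem {χ z : G → ℂ} (hz : Cl z) (h : χ ∈ irr G) (hm : ∀ g, z g ∈ O) : cc χ z ∈ O := by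
  obtain ⟨u, hu, e⟩ := UBFB_rep O h
  rw [e z hz]
  exact sum_mem fun g _ => mul_mem (hm g) (hu g)

theorem cc_non {χ z : G → ℂ} (hz : Cl z) (h : χ ∈ irr G) (hm : ∀ g, z g ∈ O.nonunits) :
    cc χ z ∈ O.nonunits := by
  obtain ⟨u, hu, e⟩ := UBFB_rep O h
  rw [e z hz, O.mem_nonunits_iff]
  exact O.valuation.map_sum_lt one_ne_zero fun g _ =>
    O.mem_nonunits_iff.1 (UBFB_mul (hm g) (hu g))

theorem piO_eq_zero {x : ℂ} (hx : x ∈ O) : piO O x = 0 ↔ x ∈ O.nonunits := by
  rw [show x = ((⟨x, hx⟩ : O) : ℂ) from rfl, piO_coe, IsLocalRing.residue_eq_zero_iff,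
    O.coe_mem_nonunits_iff]

theorem cc_red {χ y z : G → ℂ} (hy : Cl y) (hz : Cl z) (h : χ ∈ irr G) (hy' : ∀ g, y g ∈ O)
    (hz' : ∀ g, z g ∈ O) (e : red O y = red O z) : cc χ y - cc χ z ∈ O.nonunits := by
  have k : cc χ y - cc χ z = cc χ fun g => y g - z g := by
    simp only [cc, sub_mul, sum_sub_distrib, sub_div]
  rw [k]
  refine cc_non (fun g k => by simp only [hy g k, hz g k]) h fun g => ?_
  have m := sub_mem (hy' g) (hz' g)
  have e1 := piO_add m (hz' g)
  rw [sub_add_cancel, ← coeff_red, ← coeff_red z, e] at e1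
  exact (piO_eq_zero m).1 (left_eq_add.1 (e1.trans (add_comm _ _)))

theorem block_dich {b z : G → ℂ} (hb : ∀ g, b g ∈ O) (hc : Cl b) (hB : IsBlock (red O b))
    (hz : ∀ g, z g ∈ O) (hz' : Cl z) :
    (∀ χ ∈ irr G, cc χ b = 1 → cc χ z ∈ O.nonunits) ∨
      ((∃ y, Fix ⊤ y ∧ red O b * red O z * y = red O b) ∧
        ∀ χ ∈ irr G, cc χ b = 1 → cc χ z ∉ O.nonunits) := by
  have c1 := cl_cv hc hz'
  have m1 := cv_mem hb hz
  have r1 := red_cv hb hz
  have f1 : Fix ⊤ (red O b * red O z) := r1 ▸ fix_top_iff.2 (red_central c1)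
  have i1 : red O b * (red O b * red O z) * red O b = red O b * red O z := by
    rw [red_central hc, ← mul_assoc, ← mul_assoc, hB.1.eq, hB.1.eq]
  rcases hB.prim.fit f1 i1 with ⟨n, hn⟩ | ⟨y, y1, -, y2, -⟩
  · refine .inl fun χ h h1 => ?_
    have k : ∀ n : ℕ, ∃ w : G → ℂ, (∀ g, w g ∈ O) ∧ Cl w ∧
        red O w = (red O b * red O z) ^ (n + 1) ∧ cc χ w = cc χ z ^ (n + 1) := fun n => by
      have e : cc χ (cv b z) = cc χ z := by rw [cc_cv hc h, h1, one_mul]
      induction n with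
      | zero => exact ⟨_, m1, c1, by rw [r1, zero_add, pow_one], by rw [e, zero_add, pow_one]⟩
      | succ n ih =>
        obtain ⟨w, w1, w2, w3, w4⟩ := ih
        exact ⟨cv (cv b z) w, cv_mem m1 w1, cl_cv c1 w2, by rw [red_cv m1 w1, r1, w3, ← pow_succ'],
          by rw [cc_cv c1 h, e, w4, ← pow_succ']⟩
    obtain ⟨w, w1, w2, w3, w4⟩ := k n
    rw [pow_succ, hn, zero_mul] at w3
    have := cc_non w2 h fun g => (piO_eq_zero (w1 g)).1 (by rw [← coeff_red, w3]; rfl)
    rw [w4, O.mem_nonunits_iff, map_pow] at this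
    exact O.mem_nonunits_iff.2 (not_le.1 fun m => (one_le_pow_of_one_le' m _).not_gt this)
  · refine .inr ⟨⟨y, y1, y2⟩, fun χ h h1 m => ?_⟩
    obtain ⟨l, hl⟩ := exists_lift O
    have c2 : Cl fun g => l (y.coeff g) := fun g k => congrArg l (fix_iff.1 y1 k trivial g)
    have m2 : ∀ g, l (y.coeff g) ∈ O := fun g => (hl _).1
    have r2 : red O (fun g => l (y.coeff g)) = y := by
      ext g
      exact (hl _).2
    have := cc_red (cl_cv c1 c2) hc h (cv_mem m1 m2) hb (by rw [red_cv m1 m2, r1, r2, y2])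
    rw [cc_cv c1 h, cc_cv hc h, h1, one_mul, O.mem_nonunits_iff] at this
    have k := O.valuation.map_sub_lt (O.mem_nonunits_iff.1 (UBFB_mul m (cc_mem c2 h m2))) this
    rw [sub_sub_cancel, map_one] at k
    exact k.false

/-! ### Task PU BFC -/

theorem UBFC_mul {x y : ℂ} (hx : x ∈ O.nonunits) (hy : y ∈ O) : x * y ∈ O.nonunits := by
  rw [O.mem_nonunits_iff, map_mul] at *
  exact (mul_le_of_le_one_right' ((O.valuation_le_one_iff y).2 hy)).trans_lt hx

open scoped Classical in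
theorem UBFC_cls (g : G) : #{x | ConjClasses.mk x = .mk g} * Nat.card (Subgroup.centralizer {g}) =
    Nat.card G := by
  rw [Subgroup.nat_card_centralizer_nat_card_stabilizer, ← Set.ncard_coe_finset, mul_comm]
  refine Eq.trans ?_ (MulAction.stabilizer (ConjAct G) g).card_mul_index
  rw [MulAction.index_stabilizer]
  congr 2
  ext x
  simp [ConjAct.mem_orbit_conjAct, ConjClasses.mk_eq_mk_iff_isConj]

theorem deg_mem [Fact p.Prime] (hO : (p : ℂ) ∈ O.nonunits) {b : G → ℂ} (hb : ∀ g, b g ∈ O)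
    (hc : Cl b) (hB : IsBlock (red O b)) {D : Subgroup G} (hD : IsDefect p (red O b) D)
    {χ : G → ℂ} (h : χ ∈ irr G) (h1 : cc χ b = 1) :
    (Nat.card D : ℂ) * χ 1 / Nat.card G ∈ O := by
  classical
  let κ : ConjClasses G → G → ℂ := fun c g => if ConjClasses.mk g = c then 1 else 0
  have k1 : ∀ c g, κ c g ∈ O := fun c g => ite_mem.2 ⟨fun _ => one_mem _, fun _ => zero_mem _⟩
  have k2 : ∀ c, Cl (κ c) := fun c g x => by
    simp only [κ, (ConjClasses.mk_eq_mk_iff_isConj.2 (isConj_iff.2 ⟨x, rfl⟩) :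
      ConjClasses.mk g = .mk (x * g * x⁻¹))]
  have k3 : ∀ {f : G → ℂ}, Cl f → ∀ {g x}, ConjClasses.mk g = .mk x → f x = f g :=
    fun hf g x e => by
      obtain ⟨y, rfl⟩ := isConj_iff.1 (ConjClasses.mk_eq_mk_iff_isConj.1 e)
      exact hf _ _
  choose r hr using (ConjClasses.mk_surjective (α := G))
  obtain ⟨c, hu⟩ : ∃ c, b (r c) * cc χ (κ c) ∉ O.nonunits := by
    by_contra! k
    have := sum_mem fun c (_ : c ∈ univ) => k c
    rw [show ∑ c, b (r c) * cc χ (κ c) = cc χ b by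
      simp only [cc, ← mul_div_assoc, ← sum_div, mul_sum]
      rw [sum_comm]
      refine congrArg (· / χ 1) (sum_congr rfl fun g _ => ?_)
      simp [κ, k3 hc (hr (.mk g)).symm], h1] at this
    simp [O.mem_nonunits_iff] at this
  have u1 : b (r c) ∉ O.nonunits := fun k => hu (UBFC_mul k (cc_mem (k2 c) h (k1 c)))
  have u2 : cc χ (κ c) ∉ O.nonunits := fun k => hu (mul_comm (b _) _ ▸ UBFC_mul k (hb _))
  obtain ⟨⟨y, hy, e⟩, -⟩ := (block_dich hb hc hB (k1 c) (k2 c)).resolve_left fun k => u2 (k χ h h1)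
  have := kO_charP p hO
  have f1 : Fix D (red O b) := (fix_top_iff.2 (red_central hc)).mono le_top
  have f2 : Fix D (red O (κ c)) := (fix_top_iff.2 (red_central (k2 c))).mono le_top
  obtain ⟨g, hg, rfl⟩ : ∃ g ∈ Subgroup.centralizer (D : Set G), ConjClasses.mk g = c := by
    by_contra! k
    refine hD.2.1 ?_
    rw [← e, Br_mul p hD.1 ((fixAlg _ D).mul_mem f1 f2) (hy.mono le_top), Br_mul p hD.1 f1 f2,
      show Br D (red O (κ c)) = 0 from ?_, mul_zero, zero_mul]
    ext g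
    rw [coeff_Br]
    split_ifs with m
    · rw [coeff_red]
      simp only [κ, if_neg (k g m), piO_zero]
      rfl
    · rfl
  rw [k3 hc (hr _).symm] at u1
  have l1 : D ≤ Subgroup.centralizer {g} := fun u m =>
    Subgroup.mem_centralizer_singleton_iff.2 (hg u m)
  obtain ⟨S, hS⟩ := (hD.1.comap_subtype (K := Subgroup.centralizer {g})).exists_le_sylow
  have e1 := hD.2.2 (S.1.map (Subgroup.subtype _)) (S.2.map _)
    (fun u m => ⟨⟨u, l1 m⟩, hS m, rfl⟩) fun k => by
      have := congrArg (fun z => z.coeff g) k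
      rw [coeff_Br, if_pos, coeff_red] at this
      · exact u1 ((piO_eq_zero (hb g)).1 this)
      · rintro _ ⟨u, -, rfl⟩
        exact Subgroup.mem_centralizer_singleton_iff.1 u.2
  have e2 : Nat.card D * S.1.index = Nat.card (Subgroup.centralizer {g}) := by
    rw [← e1, Subgroup.card_subtype, Subgroup.card_mul_index]
  have e3 : cc χ (κ (.mk g)) = #{x | ConjClasses.mk x = .mk g} * χ g / χ 1 := by
    rw [cc, ← nsmul_eq_mul, ← sum_const, sum_filter]
    refine congrArg (· / χ 1) (sum_congr rfl fun x _ => ?_)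
    simp only [κ]
    split_ifs with m
    · rw [one_mul, k3 (irr_cl h) m]
    · rw [zero_mul]
  have m1 := mul_mem (mul_mem (int_mem_O O (virt_int (Submodule.subset_span h) g))
    (not_not.1 (not_or.1 (mt O.mem_nonunits_iff_or.2 u2)).2)) (inv_mem_O Fact.out hO
      ((Nat.Prime.coprime_iff_not_dvd Fact.out).2 S.not_dvd_index).symm)
  have n1 : cc χ (κ (.mk g)) ≠ 0 := fun k => u2 (k ▸ zero_mem _)
  have n2 : (Nat.card D : ℂ) ≠ 0 := Nat.cast_ne_zero.2 Nat.card_pos.ne'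
  rw [e3] at m1 n1
  have n3 := right_ne_zero_of_mul (div_ne_zero_iff.1 n1).1
  rw [← UBFC_cls g, ← e2]
  refine Set.mem_of_eq_of_mem ?_ m1
  push_cast
  field_simp

theorem adams_virt {f : G → ℂ} (hf : f ∈ virt G) {N : ℕ} (hN : N ≠ 0) :
    (fun g => f (g ^ N)) ∈ virt G := by
  induction N using induction_on_primes generalizing f with
  | zero => exact absurd rfl hN
  | one => simpa using hf
  | prime_mul l a hl ih =>
    have key : ∀ {f : G → ℂ}, f ∈ Ch G → (fun g => f (g ^ l)) ∈ virt G := fun {f} hf => by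
      have h1 : ∀ n, f ^ n ∈ virt G := fun n => by
        induction n with
        | zero => exact Submodule.subset_span one_mem_irr
        | succ n ih => exact pow_succ f n ▸ virt_mul ih (ChrB_virt hf)
      have h2 := sub_mem (h1 l) (nsmul_mem (ChrB_virt (adams hl hf)) l)
      refine Set.mem_of_eq_of_mem ?_ h2
      funext g
      have : (l : ℂ) ≠ 0 := Nat.cast_ne_zero.2 hl.ne_zero
      rw [Pi.sub_apply, Pi.pow_apply, Pi.smul_apply, nsmul_eq_mul, mul_div_cancel₀ _ this,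
        sub_sub_cancel]
    obtain ⟨u, hu, v, hv, rfl⟩ := virt_sub.1 hf
    simp only [pow_mul']
    exact ih (sub_mem (key hu) (key hv)) (right_ne_zero_of_mul hN)

theorem reg_virt [Fact p.Prime] (R : Subgroup G) (hR : (Nat.card R).Coprime p) :
    (fun g => if (orderOf g).Coprime p then (R.index : ℂ) else 0) ∈ virt G := by
  have hp : p.Prime := Fact.out
  obtain ⟨k, N, hN, e⟩ := Nat.exists_eq_pow_mul_and_not_dvd (Nat.card_pos (α := G)).ne' p hp.ne_one
  refine Set.mem_of_eq_of_mem ?_ (adams_virt (ChrB_virt (perm_mem_ch (X := G ⧸ R))) (N := N)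
    (by rintro rfl; simp at hN))
  funext g
  split_ifs with c
  · rw [orderOf_dvd_iff_pow_eq_one.1 ((c.pow_right k).dvd_of_dvd_mul_left (e ▸ orderOf_dvd_natCard g))]
    simp [Subgroup.index]
  · rw [eq_comm, Nat.cast_eq_zero, Nat.card_eq_zero]
    refine .inl ⟨fun ⟨x, hx⟩ => c ?_⟩
    obtain ⟨y, rfl⟩ := QuotientGroup.mk_surjective x
    have m : y⁻¹ * (g ^ N * y) ∈ R := QuotientGroup.eq.1 hx.symm
    have h1 := orderOf_dvd_iff_pow_eq_one.1 (R.orderOf_dvd_natCard m)
    rw [← mul_assoc, ← inv_inv y, inv_inv y⁻¹, conj_pow, ← pow_mul] at h1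
    refine Nat.Coprime.coprime_dvd_left (orderOf_dvd_of_pow_eq_one (n := N * Nat.card R) ?_)
      (((hp.coprime_iff_not_dvd.2 hN).symm).mul_left hR)
    exact conj_eq_one_iff.1 h1

/-! ### Task PU BFD -/

theorem UBFD_mul {x y : ℂ} (hx : x ∈ O.nonunits) (hy : y ∈ O) : x * y ∈ O.nonunits := by
  rw [O.mem_nonunits_iff] at hx ⊢
  rw [map_mul]
  exact mul_lt_one_of_lt_of_le hx ((O.valuation_le_one_iff y).2 hy)

theorem UBFD_cop [Fact p.Prime] (hO : (p : ℂ) ∈ O.nonunits) {c : ℕ} (hc : c.Coprime p) :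
    (c : ℂ) ∉ O.nonunits := fun h => by
  rcases O.mem_nonunits_iff_or.1 h with e | e
  · rw [Nat.cast_eq_zero.1 e, Nat.coprime_zero_left] at hc
    exact (Fact.out : p.Prime).one_lt.ne' hc
  · exact e (inv_mem_O Fact.out hO hc)

theorem tau_int [Fact p.Prime] (hO : (p : ℂ) ∈ O.nonunits) {χ ψ : G → ℂ} (hχ : χ ∈ virt G)
    (hψ : ψ ∈ virt G) {c : ℕ} (h : c * hp (tau p χ) ψ ∈ O) : ∃ k : ℤ, c * hp (tau p χ) ψ = k := by
  have key : ∀ R : Subgroup G, (Nat.card R).Coprime p →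
      ∃ k : ℤ, R.index * (c * hp (tau p χ) ψ) = k := fun R hR => by
    obtain ⟨k, hk⟩ := hp_virt (virt_mul (reg_virt R hR) hχ) hψ
    refine ⟨c * k, ?_⟩
    rw [Int.cast_mul, Int.cast_natCast, ← hk, mul_left_comm, ← hp_smul_left]
    refine congrArg (fun t => c * hp t ψ) (funext fun g => ?_)
    simp only [tau, Pi.smul_apply, Pi.mul_apply, smul_eq_mul]
    split_ifs <;> simp
  obtain ⟨k, hk⟩ := key ⊥ (by simp)
  rw [Subgroup.index_bot] at hk
  obtain ⟨q, hq⟩ : ∃ q : ℚ, c * hp (tau p χ) ψ = q :=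
    ⟨k / Nat.card G, by rw [Rat.cast_div, Rat.cast_intCast, Rat.cast_natCast, ← hk,
      mul_div_cancel_left₀ _ card_ne_zero]⟩
  rw [hq] at key h ⊢
  by_contra n
  obtain ⟨r, hr, hd⟩ := Nat.exists_prime_and_dvd (n := q.den) fun e =>
    n ⟨q.num, by rw [← Rat.cast_intCast, (Rat.den_eq_one_iff q).1 e]⟩
  have e : (q.num : ℂ) = q * q.den := by exact_mod_cast (Rat.mul_den_eq_num q).symm
  by_cases hp : r = p
  · obtain ⟨t, ht⟩ := hp ▸ hd
    have h1 : (q.num : ℂ) ∈ O.nonunits := by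
      rw [e, ht, Nat.cast_mul, mul_left_comm]
      exact UBFD_mul hO (mul_mem h (natCast_mem O t))
    refine UBFD_cop hO (q.reduced.coprime_dvd_right (hp ▸ hd)) ?_
    rcases Int.natAbs_eq q.num with e1 | e1 <;> rw [e1] at h1
    · rwa [Int.cast_natCast] at h1
    · rwa [Int.cast_neg, Int.cast_natCast, neg_mem_iff] at h1
  · have := Fact.mk hr
    obtain ⟨S⟩ : Nonempty (Sylow r G) := inferInstance
    obtain ⟨a, ha⟩ := IsPGroup.iff_card.1 S.isPGroup'
    obtain ⟨j, hj⟩ := key S (ha ▸ ((Nat.coprime_primes hr Fact.out).2 hp).pow_left a)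
    refine S.not_dvd_index (hd.trans (q.reduced.symm.dvd_of_dvd_mul_right ?_))
    have e1 : (S : Subgroup G).index * q.num = j * q.den := by
      have : ((S : Subgroup G).index : ℂ) * q.num = j * q.den := by rw [e, ← mul_assoc, hj]
      exact_mod_cast this
    have e2 := congrArg Int.natAbs e1
    rw [Int.natAbs_mul, Int.natAbs_mul, Int.natAbs_natCast, Int.natAbs_natCast] at e2
    exact e2 ▸ dvd_mul_left _ _

omit [Fintype G] in
theorem UBFD_cl {f : G → ℂ} (hf : Cl f) : Cl (tau p f) := fun g h => by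
  have e : orderOf (h * g * h⁻¹) = orderOf g := (MulAut.conj h).orderOf_eq g
  simp only [tau, hf g h, e]

omit [Fintype G] in
theorem UBFD_avg [Fact p.Prime] (S : Sylow p G) [Fintype (S : Subgroup G)] (f : G → ℂ) :
    ∑ y : (S : Subgroup G), tau p f y = f 1 := by
  refine (Finset.sum_eq_single_of_mem (f := fun y : (S : Subgroup G) => tau p f y) 1
    (Finset.mem_univ _) fun y _ n => if_neg fun c => ?_).trans (by simp [tau])
  obtain ⟨k, hk⟩ := IsPGroup.iff_orderOf.1 S.isPGroup' y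
  rw [Subgroup.orderOf_coe, hk] at c
  cases k with
  | zero => exact n (orderOf_eq_one_iff.1 hk)
  | succ k =>
    exact (Fact.out : p.Prime).one_lt.ne'
      (Nat.Coprime.eq_one_of_dvd c.symm (dvd_pow_self p k.succ_ne_zero))

open scoped ComplexOrder in
theorem UBFD_le (f : G → ℂ) : hp (tau p f) (tau p f) ≤ hp f f := by
  refine mul_le_mul_of_nonneg_left (Finset.sum_le_sum fun x _ => ?_)
    (inv_nonneg.2 (Nat.cast_nonneg _))
  unfold tau
  split_ifs
  · exact le_rfl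
  · rw [zero_mul]
    exact mul_star_self_nonneg _

theorem UBFD_cc {ψ : G → ℂ} (h : ψ ∈ irr G) (f : G → ℂ) :
    cc ψ (fun g => f g⁻¹) * ψ 1 = Nat.card G * hp f ψ := by
  rw [cc, div_mul_cancel₀ _ (irr_one_ne h), hp, mul_inv_cancel_left₀ card_ne_zero,
    ← Equiv.sum_comp (Equiv.inv G)]
  simp only [Equiv.inv_apply, inv_inv, irr_conj h]

open scoped Classical in
theorem UBFD_exp [Fact p.Prime] (hO : (p : ℂ) ∈ O.nonunits) {b : G → ℂ} (hb : ∀ g, b g ∈ O)
    (hc : Cl b) (hi : cv b b = b) {χ : G → ℂ} (h : χ ∈ irr G) (h1 : cc χ b = 1) :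
    tau p χ = ∑ ψ ∈ (irr_finite G).toFinset with cc ψ b = 1, hp (tau p χ) ψ • ψ := by
  have e := ap_tau hO hb hc hi (irr_cl h)
  rw [ap_irr hc h, h1, one_smul] at e
  refine e.symm.trans (funext fun x => ?_)
  have e1 : ∀ y, tau p χ y = ∑ ψ ∈ (irr_finite G).toFinset, hp (tau p χ) ψ * ψ y := fun y =>
    (congrFun (complete (UBFD_cl (irr_cl h))) y).trans (Finset.sum_apply _ _ _)
  simp only [ap, e1 (_ * x), Finset.mul_sum]
  rw [Finset.sum_comm, Finset.sum_apply, Finset.sum_filter]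
  refine Finset.sum_congr rfl fun ψ hψ => ?_
  have hψ := (Set.Finite.mem_toFinset _).1 hψ
  have e2 : ∑ g, b g * ψ (g * x) = cc ψ b * ψ x := congrFun (ap_irr hc hψ) x
  simp only [mul_left_comm (b _), ← Finset.mul_sum, e2]
  rcases cc_idem hc hi hψ with e3 | e3 <;> simp [e3]

open scoped Classical in
theorem brauer_feit [Fact p.Prime] (hO : (p : ℂ) ∈ O.nonunits) {b : G → ℂ} (hb : ∀ g, b g ∈ O)
    (hc : Cl b) (hi : cv b b = b) (hB : IsBlock (red O b)) {D : Subgroup G}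
    (hD : IsDefect p (red O b) D) :
    #{χ ∈ (irr_finite G).toFinset | cc χ b = 1} ≤ Nat.card D ^ 2 := by
  obtain ⟨E, hE⟩ : ∃ E, E = ({χ ∈ (irr_finite G).toFinset | cc χ b = 1} : Finset (G → ℂ)) :=
    ⟨_, rfl⟩
  have mE : ∀ ψ, ψ ∈ E ↔ ψ ∈ irr G ∧ cc ψ b = 1 := fun ψ => by
    rw [hE, Finset.mem_filter, Set.Finite.mem_toFinset]
  have vE : ∀ ψ ∈ E, ψ ∈ virt G := fun ψ hψ => Submodule.subset_span ((mE ψ).1 hψ).1
  rw [← hE]
  rcases E.eq_empty_or_nonempty with e | e
  · rw [e]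
    exact Nat.zero_le _
  obtain ⟨χ, hχ, hm⟩ := E.exists_max_image (fun ψ => O.valuation (ψ 1)) e
  obtain ⟨h, h1⟩ := (mE χ).1 hχ
  have ex := UBFD_exp hO hb hc hi h h1
  rw [← hE] at ex
  have zc : Cl fun g => tau p χ g⁻¹ := fun g x => by
    simp only [mul_inv_rev, inv_inv, ← mul_assoc, UBFD_cl (irr_cl h) g⁻¹ x]
  have zm : ∀ g, tau p χ g⁻¹ ∈ O := fun g => by
    unfold tau
    split_ifs
    exacts [int_mem_O O (virt_int (vE χ hχ) _), O.zero_mem]
  have nu : ∀ ψ ∈ E, cc ψ (fun g => tau p χ g⁻¹) ∉ O.nonunits := by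
    refine fun ψ hψ => ((block_dich hb hc hB zm zc).resolve_left fun n => ?_).2 ψ ((mE ψ).1 hψ).1
      ((mE ψ).1 hψ).2
    obtain ⟨S⟩ : Nonempty (Sylow p G) := inferInstance
    have c0 : (Nat.card (S : Subgroup G) : ℂ) ≠ 0 := card_ne_zero
    refine UBFD_cop hO ((Nat.Prime.coprime_iff_not_dvd Fact.out).2 S.not_dvd_index).symm ?_
    have e1 : ((S : Subgroup G).index : ℂ) = ∑ ψ ∈ E, cc ψ (fun g => tau p χ g⁻¹) *
        (((Nat.card (S : Subgroup G) : ℂ)⁻¹ * ∑ u : (S : Subgroup G), ψ u) * (ψ 1 / χ 1)) := by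
      refine mul_right_cancel₀ (irr_one_ne h) ?_
      rw [Finset.sum_mul]
      refine (congrArg _ (UBFD_avg S χ).symm).trans ?_
      rw [Finset.sum_congr rfl fun (y : (S : Subgroup G)) _ =>
        (congrFun ex y).trans (Finset.sum_apply _ _ _), Finset.sum_comm, Finset.mul_sum]
      refine Finset.sum_congr rfl fun ψ hψ => ?_
      rw [mul_assoc, mul_assoc, div_mul_cancel₀ _ (irr_one_ne h), mul_comm _ (ψ 1), ← mul_assoc,
        UBFD_cc ((mE ψ).1 hψ).1, ← (S : Subgroup G).index_mul_card, Nat.cast_mul]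
      simp only [Pi.smul_apply, smul_eq_mul, ← Finset.mul_sum]
      field_simp
    rw [e1]
    refine sum_mem fun ψ hψ => UBFD_mul (n ψ ((mE ψ).1 hψ).1 ((mE ψ).1 hψ).2)
      (mul_mem (int_mem_O O ?_) ((O.valuation_le_one_iff _).1 ?_))
    · simpa using avg_int (vE ψ hψ) 1 (S : Subgroup G).subtype fun u => Commute.one_left _
    · rw [map_div₀]
      exact div_le_one_of_le₀ (hm ψ hψ) zero_le
  have ik : ∀ ψ ∈ E, ∃ k : ℤ, k ≠ 0 ∧ Nat.card D * hp (tau p χ) ψ = k := fun ψ hψ => by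
    obtain ⟨h2, h3⟩ := (mE ψ).1 hψ
    have e1 : Nat.card D * hp (tau p χ) ψ =
        cc ψ (fun g => tau p χ g⁻¹) * (Nat.card D * ψ 1 / Nat.card G) := by
      rw [← mul_div_assoc, mul_left_comm, UBFD_cc h2, mul_left_comm,
        mul_div_cancel_left₀ _ card_ne_zero]
    obtain ⟨k, hk⟩ := tau_int hO (vE χ hχ) (vE ψ hψ)
      (e1 ▸ mul_mem (cc_mem zc h2 zm) (deg_mem hO hb hc hB hD h2 h3))
    refine ⟨k, fun e2 => nu ψ hψ ?_, hk⟩
    rw [e1, e2, Int.cast_zero, mul_eq_zero] at hk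
    rw [hk.resolve_right (div_ne_zero (mul_ne_zero card_ne_zero (irr_one_ne h2)) card_ne_zero)]
    exact zero_mem _
  choose! k k0 hk using ik
  have e1 : (Nat.card D : ℂ) ^ 2 * hp (tau p χ) (tau p χ) = ((∑ ψ ∈ E, k ψ ^ 2 : ℤ) : ℂ) := by
    refine (congrArg _ ((congrArg (ChrA_L (tau p χ)) ex).trans (map_sum _ _ _))).trans ?_
    rw [Int.cast_sum, Finset.mul_sum]
    refine Finset.sum_congr rfl fun ψ hψ => ?_
    have e2 := congrArg star (hk ψ hψ)
    rw [star_mul', star_natCast, star_intCast, hp_star] at e2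
    rw [map_smul, Int.cast_pow, sq (k ψ : ℂ), ← congrArg₂ (· * ·) (hk ψ hψ) e2, sq]
    exact mul_mul_mul_comm _ _ _ _
  have e2 : ∑ ψ ∈ E, k ψ ^ 2 ≤ (Nat.card D : ℤ) ^ 2 := by
    open scoped ComplexOrder in
    have := mul_le_mul_of_nonneg_left (UBFD_le (p := p) χ)
      (pow_nonneg (Nat.cast_nonneg (α := ℂ) (Nat.card D)) 2)
    rw [e1, hp_irr h h, if_pos rfl, mul_one] at this
    exact_mod_cast this
  have e3 : (#E : ℤ) ≤ ∑ ψ ∈ E, k ψ ^ 2 := by
    rw [Finset.card_eq_sum_ones, Nat.cast_sum]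
    exact Finset.sum_le_sum fun ψ hψ => pow_two_pos_of_ne_zero (k0 ψ hψ)
  exact_mod_cast e3.trans e2

end PD
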