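import Pool.Agent.Work.MP_cea1f0_al.D.Final
import Pool.Agent.Work.MP_cea1f0_al.D.Osi
import Pool.Agent.Work.MP_cea1f0_al.U.BF

-- merged part: Pool.Agent.Work.MP_cea1f0_al.U.Tw
section
/-!
# Multiplication by a linear character of order prime to `p`
-/

namespace PD

open Ob CF Finset Module Polynomial Pool.Agent.Lib.SymRep Pool.Agent.Puig

variable {K : Type} [Field K] [Finite K] {χ : Kb K →*₀ ℂ} {n p : ℕ}

/-- The value of `χ ^ j` at the product of the roots. -/
noncomputable def PP (χ : Kb K →*₀ ℂ) (j : ℕ) (u : K[X]) : ℂ := χ (u.aroots (Kb K)).prod ^ j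

/-- Multiplication by `χ (det g) ^ j`. -/
noncomputable def tw (χ : Kb K →*₀ ℂ) (j : ℕ) : HA K →ₐ[ℂ] HA K :=
  pmA (cpf (PP χ j)) (isMul_cpf fun u v hu hv => by
    rw [PP, aroots_mul (hu.mul hv).ne_zero, Multiset.prod_add, map_mul, mul_pow]
    rfl) (by
    change PP χ j (zero K).cp = 1
    rw [(cp_monic _).natDegree_eq_zero.1 ((cp_natDegree _).trans dim_zero)]
    simp [PP])

theorem tw_apply (j : ℕ) (f : HA K) : tw χ j f = mf (PP χ j) f := rfl

theorem tw_rho (hn : 0 < n) (j i : ℕ) :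
    tw χ i (rho χ n j) = rho χ n (j + i * nm (Nat.card K) n 1) := by
  simp only [rho, tw_apply]
  rw [map_smul, mf_mf]
  congr 1
  refine mf_pi_congr hn fun α hα => ?_
  have h1 : ((range n).val.map fun i => α ^ Nat.card K ^ i).prod = α ^ nm (Nat.card K) n 1 := by
    rw [nm, ← prod_pow_eq_pow_sum]
    simp only [Nat.div_one, one_mul]
    rfl
  rw [Pi.mul_apply, PS_uu hn hα, PS_uu hn hα, mul_sum, PP, aroots_uu hn hα, h1]
  refine sum_congr rfl fun s _ => ?_
  rw [map_pow, ← pow_mul, ← pow_add, add_mul, add_comm, mul_comm _ i]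
  refine chi_congr hn hα (Nat.ModEq.add_left _ ((modEq_nm (one_lt_q K) (one_dvd n) hn
    (j := i) (j' := i * Nat.card K ^ s)).2 ?_ |>.trans (by rw [mul_right_comm])))
  simpa [Nat.mod_one] using (NuB_mod (one_lt_q K) i 1 s)

theorem tw_orth (hχ : Function.Injective χ) (hp : p.Prime) (hn : 0 < n) {i : ℕ}
    (hi : ¬ good p (Nat.card K) 1 i) {η η' : HA K} (h : η ∈ Es p χ n) (h' : η' ∈ Es p χ n) :
    PD.hn n (tw χ i η) η' = 0 := by
  have e : gS p χ n = Set.range fun i : {x : ℕ × ℕ // 0 < x.1 ∧ x.1 ≤ n ∧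
      good p (Nat.card K) x.1 x.2} => rho χ i.1.1 i.1.2 := Set.ext fun y =>
    ⟨fun ⟨a, j, h1, h2, h3, h4⟩ => ⟨⟨(a, j), h1, h2, h3⟩, h4.symm⟩,
      fun ⟨i, h4⟩ => ⟨_, _, i.2.1, i.2.2.1, i.2.2.2, h4.symm⟩⟩
  have hf := E_mem hχ hp h
  rw [VV, e] at hf
  rw [← (irr_E h).1.cmp_eq]
  refine LinearMap.mem_ker.1 (Submodule.span_le.2
    (?_ : _ ⊆ (LinearMap.ker (hnl n η' ∘ₗ (tw χ i).toLinearMap) : Set (HA K)))
    (cmp_adjoin (fun i => (prim_rho i.2.1 _).2.1) hf n))
  rintro _ ⟨l, k, rfl⟩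
  rcases l with _ | ⟨⟨⟨a, j⟩, h1, h2, s, h3⟩, l⟩
  · exact absurd k hn.ne
  · change PD.hn n (tw χ i (rho χ a j * _)) η' = 0
    rw [map_mul, tw_rho h1, ← hn_star, bad_E hχ hp h1 ?_ h', star_zero]
    rintro ⟨t, h4⟩
    refine hi ((good_nm (one_lt_q K) (one_dvd a) h1).1 ⟨t + s, (Nat.dvd_add_right
      (h3.trans ⟨p ^ t, by ring⟩ : _ ∣ j * p ^ (t + s))).1 (h4.trans ⟨p ^ s, by ring⟩)⟩)

theorem exists_tw (hχ : Function.Injective χ) {c : Kˣ →* ℂˣ} (h1 : c ≠ 1)
    (h2 : (orderOf c).Coprime p) : ∃ i, ¬ good p (Nat.card K) 1 i ∧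
      ∀ a : Kˣ, (c a : ℂ) = χ (algebraMap K _ a.1) ^ i := by
  obtain ⟨g, hg⟩ := IsCyclic.exists_monoid_generator (α := Kˣ)
  have k0 : orderOf g = Nat.card K - 1 := by
    rw [← Nat.card_units, orderOf_eq_card_of_forall_mem_powers hg]
  have k1 : IsPrimitiveRoot (χ (algebraMap K _ g.1)) (Nat.card K - 1) := by
    rw [← k0, ← orderOf_units]
    exact ((IsPrimitiveRoot.orderOf g.1).map_of_injective (algebraMap K (Kb K)).injective
      ).map_of_injective hχ
  have : NeZero (Nat.card K - 1) := ⟨(Nat.sub_pos_of_lt (one_lt_q K)).ne'⟩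
  obtain ⟨i, -, hi⟩ := k1.eq_pow_of_pow_eq_one (ξ := (c g : ℂ)) (by
    rw [← Units.val_pow_eq_pow_val, ← map_pow, ← k0, pow_orderOf_eq_one, map_one, Units.val_one])
  have k2 : ∀ a : Kˣ, (c a : ℂ) = χ (algebraMap K _ a.1) ^ i := fun a => by
    obtain ⟨m, rfl⟩ := hg a
    simp only [map_pow, Units.val_pow_eq_pow_val, ← hi]
    exact pow_right_comm _ _ _
  refine ⟨i, fun ⟨s, t, e⟩ => h1 (orderOf_eq_one_iff.1 ((h2.pow_right s).eq_one_of_dvd
    (orderOf_dvd_of_pow_eq_one (MonoidHom.ext fun a => Units.ext ?_)))), k2⟩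
  rw [MonoidHom.pow_apply, Units.val_pow_eq_pow_val, k2, ← pow_mul, e, pow_mul, pow_one,
    ← Nat.card_units, ← map_pow χ _ (Nat.card Kˣ), ← map_pow (algebraMap K _),
    ← Units.val_pow_eq_pow_val, pow_card_eq_one']
  simp

theorem cg_tw {V : Type} [AddCommGroup V] [Module K V] [FiniteDimensional K V] (i : ℕ) (f : HA K)
    (g : V ≃ₗ[K] V) : cg V (tw χ i f) g =
      χ (algebraMap K _ (LinearEquiv.det g).1) ^ i * cg V f g := by
  have h1 : algebraMap K (Kb K) (LinearEquiv.det g).1 =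
      ((g : V →ₗ[K] V).charpoly.aroots (Kb K)).prod := by
    rw [LinearEquiv.coe_det, ← LinearMap.det_baseChange,
      End.det_eq_prod_roots_charpoly_of_splits (IsAlgClosed.splits _),
      LinearMap.charpoly_baseChange]
  rw [h1]
  rfl

open scoped Classical in
theorem twist_zero (hχ : Function.Injective χ) (hp : p.Prime) {V : Type} [AddCommGroup V]
    [Module K V] [Finite V] [FiniteDimensional K V] [Nontrivial V] {e : (V ≃ₗ[K] V) → ℂ}
    (he : Cl e) (h : ∀ f, Cl f → ∀ x, ∑ g, e g * f (g * x) =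
      ∑ φ ∈ (Es p χ (finrank K V)).image (cg V), PD.hp f φ * φ x)
    (hc : ∀ f : HA K, Cl (cg V f)) (hE : ∀ η ∈ Es p χ (finrank K V), cg V η ∈ irr _)
    {c : Kˣ →* ℂˣ} (h1 : c ≠ 1) (h2 : (orderOf c).Coprime p) :
    cv e (fun g => (c (LinearEquiv.det g) : ℂ) * e g) = 0 := by
  obtain ⟨i, k1, k2⟩ := exists_tw hχ h1 h2
  funext x
  have k3 := h (fun y => (c (LinearEquiv.det y⁻¹) : ℂ) * e y⁻¹) (fun g y => by
    have := he g⁻¹ y
    simp only [mul_inv_rev, inv_inv, ← mul_assoc, this]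
    simp) x⁻¹
  refine Eq.trans (sum_congr rfl fun g _ => ?_) (k3.trans (sum_eq_zero fun φ hφ => ?_))
  · have := he (g⁻¹ * x) x
    simp only [mul_inv_rev, inv_inv, mul_assoc, mul_inv_cancel, mul_one] at this ⊢
    rw [this, map_mul, map_mul, map_mul, map_mul, mul_comm (c _)]
  · obtain ⟨η, hη, rfl⟩ := mem_image.1 hφ
    refine mul_eq_zero_of_left (mul_eq_zero_of_right _ ?_) _
    have k4 := h _ (hc (tw χ i η)) 1
    refine (Fintype.sum_equiv (Equiv.inv _) _ _ fun g => ?_).trans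
      (k4.trans (sum_eq_zero fun φ hφ => ?_))
    · rw [Equiv.inv_apply, mul_one, cg_tw, irr_conj (hE η hη), ← k2]
      ring
    · obtain ⟨η', hη', rfl⟩ := mem_image.1 hφ
      have k5 := hp_equiv (LinearMap.GeneralLinearGroup.generalLinearEquiv K V).symm
        (cf V (tw χ i η)) (cf V η')
      rw [hp_cf rfl, tw_orth hχ hp finrank_pos k1 hη hη'] at k5
      exact mul_eq_zero_of_left k5 _

end PD
end

-- merged part: Pool.Agent.Work.MP_cea1f0_al.U.Final
section
/-!
# The characteristic zero data for the unipotent blocks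
-/

namespace PD

open Ob CF Finset Module Pool.Agent.Lib.SymRep Pool.Agent.Puig

variable {K : Type} [Field K] [Finite K]

theorem cl_cg {V : Type} [AddCommGroup V] [Module K V] [FiniteDimensional K V] (f : HA K) :
    Cl (cg V f) := fun g h => by
  simp only [cg_apply, map_mul, map_inv]
  exact cf_cl f _ _

open scoped Classical in
theorem exists_e {p : ℕ} (hp : p.Prime) {O : ValuationSubring ℂ} (hO : (p : ℂ) ∈ O.nonunits)
    (hK : (p : K) ≠ 0) {χ : Kb K →*₀ ℂ} (hχ : Function.Injective χ) (V : Type) [AddCommGroup V]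
    [Module K V] [Finite V] : ∃ e : (V ≃ₗ[K] V) → ℂ, (∀ g, e g ∈ O) ∧ ClassFn e ∧ cv e e = e ∧
      ∀ [FiniteDimensional K V], (∀ f, Cl f → ∀ x, ∑ g, e g * f (g * x) =
        ∑ φ ∈ (Es p χ (finrank K V)).image (cg V), PD.hp f φ * φ x) ∧
      ∀ a b, bitr a (cv e b) = ∑ φ ∈ (Es p χ (finrank K V)).image (cg V),
        (∑ g, a g * φ g) * ∑ g, b g * φ g := by
  have : FiniteDimensional K V := Module.Finite.of_finite
  obtain ⟨e, h1, h2, h3, h4⟩ := osima hp hO ((Es p χ (finrank K V)).image (cg V))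
    (fun x hx => by
      obtain ⟨η, hη, rfl⟩ := mem_image.1 hx
      exact irr_cg (irr_E hη)) fun x hx => by
      obtain ⟨η, hη, rfl⟩ := mem_image.1 hx
      have h3 : tau p (cg V η) = cg V (ta K p η) := funext fun g => by
        rw [cg_apply, cf_ta (Final_cop hp hK)]
        simp only [tau, MulEquiv.orderOf_eq, cg_apply]
      rw [h3, coe_image, Submodule.span_image]
      exact Submodule.mem_map_of_mem (ta_E hχ hp hη)
  exact ⟨e, h1, h2, h3, h4⟩

theorem uData3 (p : ℕ) [Fact p.Prime] : UData3 p := by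
  classical
  have hp : p.Prime := Fact.out
  refine ⟨Nat.factorial, fun O hO K _ _ hK => ?_⟩
  obtain ⟨χ, hχ⟩ := exists_chi K
  choose e h1 h2 h3 h4 using fun (V : Type) [AddCommGroup V] [Module K V] [Finite V] =>
    exists_e hp hO hK hχ V
  have hE : ∀ (V : Type) [AddCommGroup V] [Module K V] [Finite V] [FiniteDimensional K V],
      ∀ x ∈ (Es p χ (finrank K V)).image (cg V), x ∈ irr (V ≃ₗ[K] V) := fun V _ _ _ _ x hx => by
    obtain ⟨η, hη, rfl⟩ := mem_image.1 hx
    exact irr_cg (irr_E hη)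
  have hP : ∀ (V : Type) [AddCommGroup V] [Module K V] [Finite V] [FiniteDimensional K V],
      ∀ f ∈ Submodule.span ℂ (Es p χ (finrank K V) : Set (HA K)),
        ∀ x, ∑ g, e V g * cg V f (g * x) = cg V f x := fun V _ _ _ _ f hf x => by
    rw [(h4 V).1 _ (cl_cg f)]
    refine Eq.trans ?_ (congrFun (Final_proj (hE V) (f := cg V f) ?_) x)
    · rw [Finset.sum_apply]
      rfl
    · rw [coe_image, Submodule.span_image]
      exact Submodule.mem_map_of_mem hf
  refine ⟨e, h1, h2, h3, fun V _ _ _ n => ?_, fun A B V _ _ _ _ _ _ _ _ _ ψ a a' h => ?_,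
    fun V _ _ _ n hV m x r hm hx hr f hf => ?_,
    fun A B V _ _ _ _ _ _ _ _ _ ψ a a' ha ha' b D hb hc hi hB hD => ?_,
    fun V _ _ _ _ c k k' => ?_⟩
  · have : FiniteDimensional K V := Module.Finite.of_finite
    have h8 : ∀ g, (pch (flAct n K V) Set.univ g : ℂ) =
        cg V (cmp (finrank K V) (HH K ^ n)) g := fun g => by
      rw [cg_apply, cf_cmp, if_pos rfl, ← pch_univ, MulEquiv.apply_symm_apply]
    have e3 := hP V _ (cmp_span hχ hp (cmp_hh_mem (cmp_HH_pow n (finrank K V)) (finrank K V))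
      (finrank K V)) 1
    rw [(hom_cmp _ (HH K ^ n)).cmp_eq, (hom_cmp _ (HH K ^ n)).cmp_eq] at e3
    simp only [mul_one] at e3
    simp only [pev, h8]
    rw [e3, ← h8]
    simp [pch]
  · have : FiniteDimensional K A := Module.Finite.of_finite
    have : FiniteDimensional K B := Module.Finite.of_finite
    have : FiniteDimensional K V := Module.Finite.of_finite
    rw [(h4 V).2]
    refine sum_eq_zero fun φ hφ => mul_eq_zero_of_left ?_ _
    obtain ⟨η, hη, rfl⟩ := mem_image.1 hφ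
    rw [lev_irr]
    refine sum_eq_zero fun η₁ k₁ => sum_eq_zero fun η₂ k₂ => ?_
    rw [← ψ.finrank_eq, finrank_prod] at hη
    refine mul_eq_zero.2 (or_iff_not_imp_left.2 fun k => mul_eq_zero_of_right _ ?_)
    have k3 := hP B η₂ (Submodule.subset_span (E_levi hχ hp hη (mem_irs.1 k₁) (mem_irs.1 k₂) k))
    have k4 : ∑ x, cv (e B) a' x * cg B η₂ x = 0 := by simp [h]
    rw [← k4]
    simp only [cv, sum_mul]
    rw [sum_comm]
    refine (sum_congr rfl fun x _ => by rw [← k3 x, mul_sum]).trans (sum_comm.trans ?_)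
    refine sum_congr rfl fun y _ => Fintype.sum_equiv (Equiv.mulLeft y) _ _ fun x => ?_
    simp only [Equiv.coe_mulLeft, inv_mul_cancel_left]
    ring
  · have : FiniteDimensional K V := Module.Finite.of_finite
    have k1 : ∑ φ ∈ (Es p χ (finrank K V)).image (cg V), PD.hp f φ • φ ∈
        (Submodule.span ℂ (Set.range fun μ : Ty n (finrank K V) =>
          cg V (tz p r m (∏ t, hh K (μ.1 t))))) ⊔
          (Submodule.span ℂ (Set.range fun η => cg V (η - tz p r m η))) := by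
      refine Submodule.sum_mem _ fun φ hφ => Submodule.smul_mem _ _ ?_
      obtain ⟨η, hη, rfl⟩ := mem_image.1 hφ
      rw [← add_sub_cancel (tz p r m η) η, map_add]
      refine Submodule.add_mem_sup ?_ (Submodule.subset_span ⟨η, rfl⟩)
      refine Submodule.mem_comap.1 (Submodule.span_le.2 ?_ (tz_E hχ hp hm hη hV))
      rintro _ ⟨ν, h12, h13, rfl⟩
      have h14 : ∀ t, ν t < n + 1 := fun t => Nat.lt_succ_of_le
        ((single_le_sum (fun _ _ => Nat.zero_le _) (mem_univ t)).trans (h13.le.trans hV))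
      exact Submodule.subset_span ⟨⟨fun t => ⟨ν t, h14 t⟩, fun _ _ h => h12 h, h13⟩, rfl⟩
    obtain ⟨u, hu, v, hv, k2⟩ := Submodule.mem_sup.1 k1
    obtain ⟨a, rfl⟩ := (Submodule.mem_span_range_iff_exists_fun ℂ).1 hu
    refine ⟨a, fun y hy hy' => ?_⟩
    have k3 : ∀ η : HA K, cg V (tz p r m η) (x * y) = cg V η (x * y) := fun η => by
      rw [cg_apply, cg_apply, cf_apply, tz_apply, mf_val, map_mul, zA_of hp (by exact hx)
        (by rw [← map_pow, hr, map_one]) (hy.map _) (by rwa [MulEquiv.orderOf_eq]), one_mul,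
        cf_apply]
    have k4 : v ∈ LinearMap.ker (LinearMap.proj (R := ℂ) (φ := fun _ => ℂ) (x * y)) := by
      refine Submodule.span_le.2 ?_ hv
      rintro _ ⟨η, rfl⟩
      change cg V (η - tz p r m η) (x * y) = 0
      rw [map_sub, Pi.sub_apply, k3, sub_self]
    have k5 := congrFun k2 (x * y)
    rw [Pi.add_apply, show v (x * y) = 0 from k4, add_zero, Finset.sum_apply,
      Finset.sum_apply] at k5
    rw [ap, (h4 V).1 f hf]
    refine k5.symm.trans (sum_congr rfl fun μ _ => ?_)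
    rw [Pi.smul_apply, k3, cg_apply, ← pch_flS, MulEquiv.apply_symm_apply, smul_eq_mul]
  · have : FiniteDimensional K A := Module.Finite.of_finite
    have : FiniteDimensional K B := Module.Finite.of_finite
    have : FiniteDimensional K V := Module.Finite.of_finite
    rw [bitr_eq, ← sum_filter_of_ne (p := fun φ => cc φ b = 1) fun φ hφ k => ?_]
    · refine (norm_sum_le _ _).trans ((sum_le_card_nsmul _ _
        (((finrank K B).factorial * ‖bitr a a‖ * ‖bitr a' a'‖) ^ 2) fun φ hφ => ?_).trans ?_)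
      · obtain ⟨k1, k2⟩ := mem_filter.1 hφ
        rw [Set.Finite.mem_toFinset] at k1
        rw [sum_cv hc k1, k2, one_mul, norm_mul, ← sq]
        exact pow_le_pow_left₀ (norm_nonneg _) (lev_bound ψ ha ha' k1) 2
      · rw [nsmul_eq_mul]
        gcongr
        exact_mod_cast brauer_feit hO hb hc hi hB hD
    · rw [Set.Finite.mem_toFinset] at hφ
      refine (cc_idem hc hi hφ).resolve_left fun k' => k ?_
      rw [sum_cv hc hφ, k', zero_mul, mul_zero]
  · have : FiniteDimensional K V := Module.Finite.of_finite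
    exact twist_zero hχ hp (h2 V) (h4 V).1 cl_cg (fun _ h => irr_cg (irr_E h)) k k'

end PD
end
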